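import Mathlib
import Pool.Agent.helper13.BN.Defs

set_option autoImplicit false

/-!
# Pointwise inequalities for the critical nonlinearity
-/

open MeasureTheory Filter Topology Set
open scoped ContDiff Gradient RealInnerProductSpace ENNReal

noncomputable section

namespace Pool.Agent.helper13.BN

variable {N : ℕ}

lemma pw_pm_ge (hN : 3 ≤ N) (hN5 : N ≤ 5) : 4 / 3 ≤ pm N := by
  unfold pm
  interval_cases N <;> norm_num

lemma pw_abs_le_max {u v x : ℝ} (hx : x ∈ uIcc u v) : |x| ≤ max |u| |v| := by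
  rcases mem_uIcc.mp hx with ⟨h1, h2⟩ | ⟨h1, h2⟩
  · exact abs_le_max_abs_abs h1 h2
  · rw [max_comm]; exact abs_le_max_abs_abs h1 h2

lemma pw_max_rpow_le {a b s : ℝ} (ha : 0 ≤ a) (hb : 0 ≤ b) : (max a b) ^ s ≤ a ^ s + b ^ s := by
  rcases le_total a b with h | h
  · rw [max_eq_right h]
    have := Real.rpow_nonneg ha s
    linarith
  · rw [max_eq_left h]
    have := Real.rpow_nonneg hb s
    linarith

lemma pw_add_rpow_le {a b s : ℝ} (ha : 0 ≤ a) (hb : 0 ≤ b) (hs : 0 ≤ s) :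
    (a + b) ^ s ≤ 2 ^ s * (a ^ s + b ^ s) := by
  have h1 : a + b ≤ 2 * max a b := by
    have := le_max_left a b
    have := le_max_right a b
    linarith
  have h2 : (0:ℝ) ≤ max a b := le_trans ha (le_max_left a b)
  calc (a + b) ^ s ≤ (2 * max a b) ^ s := Real.rpow_le_rpow (by linarith) h1 hs
    _ = 2 ^ s * (max a b) ^ s := Real.mul_rpow (by norm_num) h2
    _ ≤ 2 ^ s * (a ^ s + b ^ s) :=
        mul_le_mul_of_nonneg_left (pw_max_rpow_le ha hb) (Real.rpow_nonneg (by norm_num) s)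

lemma pw_abs_sub_two {q x : ℝ} (hq : 1 < q) : |x| ^ (q - 2) * |x| ≤ |x| ^ (q - 1) := by
  rcases eq_or_ne x 0 with rfl | hx
  · simp only [abs_zero, mul_zero]
    exact Real.rpow_nonneg le_rfl _
  · have hx' : 0 < |x| := abs_pos.mpr hx
    have : |x| ^ (q - 1) = |x| ^ (q - 2) * |x| := by
      rw [← Real.rpow_add_one hx'.ne']; congr 1; ring
    rw [this]

/-- mean value inequality -/
lemma pw_mvt {f f' : ℝ → ℝ} (hf : ∀ x, HasDerivAt f (f' x) x) {u v C : ℝ}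
    (hC : ∀ x ∈ uIcc u v, |f' x| ≤ C) : |f u - f v| ≤ C * |u - v| := by
  have := (convex_uIcc v u).norm_image_sub_le_of_norm_hasDerivWithin_le (f := f) (f' := f') (C := C)
    (fun x _ => (hf x).hasDerivWithinAt) (fun x hx => by
      rw [uIcc_comm] at hx; exact hC x hx) left_mem_uIcc right_mem_uIcc
  exact this

lemma pw_abs_lip {q : ℝ} (hq : 1 < q) (u v : ℝ) :
    |(|u| ^ q - |v| ^ q)| ≤ q * (|u| ^ (q - 1) + |v| ^ (q - 1)) * |u - v| := by
  apply pw_mvt (f := fun x => |x| ^ q) (f' := fun x => q * |x| ^ (q - 2) * x)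
    (fun x => hasDerivAt_abs_rpow x hq)
  intro x hx
  have h1 := pw_abs_le_max hx
  rw [abs_mul, abs_mul, abs_of_pos (by linarith : (0:ℝ) < q),
    abs_of_nonneg (Real.rpow_nonneg (abs_nonneg x) _), mul_assoc]
  apply mul_le_mul_of_nonneg_left _ (by linarith)
  calc |x| ^ (q - 2) * |x| ≤ |x| ^ (q - 1) := pw_abs_sub_two hq
    _ ≤ (max |u| |v|) ^ (q - 1) := Real.rpow_le_rpow (abs_nonneg _) h1 (by linarith)
    _ ≤ _ := pw_max_rpow_le (abs_nonneg _) (abs_nonneg _)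

lemma pw_sq {q x : ℝ} (hq : 0 < q) : |x| ^ (q - 2) * x * x = |x| ^ q := by
  rcases eq_or_ne x 0 with rfl | hx
  · simp [Real.zero_rpow hq.ne']
  · have hx' : 0 < |x| := abs_pos.mpr hx
    have h1 : |x| ^ q = |x| ^ (q - 2) * |x| ^ (2:ℝ) := by
      rw [← Real.rpow_add hx']; congr 1; ring
    rw [h1, show (2:ℝ) = ((2:ℕ):ℝ) by norm_num, Real.rpow_natCast, sq_abs]
    ring

lemma pw_hasDerivAt_nl {q : ℝ} (hq : 1 < q) (u : ℝ) :
    HasDerivAt (fun x : ℝ => |x| ^ q * x) ((q + 1) * |u| ^ q) u := by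
  have h := (hasDerivAt_abs_rpow u hq).mul (hasDerivAt_id u)
  refine HasDerivAt.congr_deriv h ?_
  have := pw_sq (x := u) (by linarith : 0 < q)
  calc q * |u| ^ (q - 2) * u * id u + |u| ^ q * 1
      = q * (|u| ^ (q - 2) * u * u) + |u| ^ q := by simp only [id]; ring
    _ = q * |u| ^ q + |u| ^ q := by rw [this]
    _ = _ := by ring

theorem hasDerivAt_nl (hN : 3 ≤ N) (hN5 : N ≤ 5) (u : ℝ) : HasDerivAt (nl N) (dnl N u) u :=
  pw_hasDerivAt_nl (by have := pw_pm_ge hN hN5; linarith) u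

theorem hasDerivAt_NL (hN : 3 ≤ N) (hN5 : N ≤ 5) (u : ℝ) : HasDerivAt (NL N) (nl N u) u := by
  have hq := pw_pm_ge hN hN5
  have h := (hasDerivAt_abs_rpow u (by linarith : 1 < pm N + 2)).div_const (pm N + 2)
  refine HasDerivAt.congr_deriv h ?_
  unfold nl
  have : pm N + 2 ≠ 0 := by linarith
  rw [show pm N + 2 - 2 = pm N by ring]
  field_simp

theorem continuous_dnl (hN : 3 ≤ N) (hN5 : N ≤ 5) : Continuous (dnl N) := by
  have hq := pw_pm_ge hN hN5
  unfold dnl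
  exact continuous_const.mul (continuous_abs.rpow_const (fun _ => Or.inr (by linarith)))

theorem nl_neg (u : ℝ) : nl N (-u) = - nl N u := by
  unfold nl; rw [abs_neg]; ring

theorem NL_neg (u : ℝ) : NL N (-u) = NL N u := by
  unfold NL; rw [abs_neg]

theorem dnl_neg (u : ℝ) : dnl N (-u) = dnl N u := by
  unfold dnl; rw [abs_neg]

theorem nl_mul (s u : ℝ) (hs : 0 < s) : nl N (s * u) = s ^ (pm N + 1) * nl N u := by
  unfold nl
  rw [abs_mul, abs_of_pos hs, Real.mul_rpow hs.le (abs_nonneg u), Real.rpow_add_one hs.ne']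
  ring

theorem dnl_mul_self (hN : 3 ≤ N) (u : ℝ) : dnl N u * u = (pm N + 1) * nl N u := by
  unfold dnl nl; ring

theorem nl_lip (hN : 3 ≤ N) (hN5 : N ≤ 5) : ∃ C : ℝ, 0 < C ∧ ∀ u v : ℝ,
    |nl N u - nl N v| ≤ C * (|u| ^ pm N + |v| ^ pm N) * |u - v| := by
  have hq := pw_pm_ge hN hN5
  refine ⟨pm N + 1, by linarith, fun u v => ?_⟩
  apply pw_mvt (f := nl N) (f' := dnl N) (fun x => hasDerivAt_nl hN hN5 x)
  intro x hx
  have h1 := pw_abs_le_max hx
  unfold dnl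
  rw [abs_mul, abs_of_pos (by linarith : 0 < pm N + 1),
    abs_of_nonneg (Real.rpow_nonneg (abs_nonneg x) _)]
  apply mul_le_mul_of_nonneg_left _ (by linarith)
  exact (Real.rpow_le_rpow (abs_nonneg _) h1 (by linarith)).trans
    (pw_max_rpow_le (abs_nonneg _) (abs_nonneg _))

lemma pw_dnl_lip (hN : 3 ≤ N) (hN5 : N ≤ 5) (u v : ℝ) :
    |dnl N u - dnl N v| ≤ ((pm N + 1) * pm N) * (|u| ^ (pm N - 1) + |v| ^ (pm N - 1)) * |u - v| := by
  have hq := pw_pm_ge hN hN5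
  unfold dnl
  rw [← mul_sub, abs_mul, abs_of_pos (by linarith : 0 < pm N + 1)]
  have := pw_abs_lip (by linarith : 1 < pm N) u v
  calc (pm N + 1) * |(|u| ^ pm N - |v| ^ pm N)|
      ≤ (pm N + 1) * (pm N * (|u| ^ (pm N - 1) + |v| ^ (pm N - 1)) * |u - v|) :=
        mul_le_mul_of_nonneg_left this (by linarith)
    _ = _ := by ring

theorem dnl_lip (hN : 3 ≤ N) (hN5 : N ≤ 5) : ∃ C : ℝ, 0 < C ∧ ∀ u v : ℝ,
    |dnl N u - dnl N v| ≤ C * (|u| ^ (pm N - 1) + |v| ^ (pm N - 1)) * |u - v| := by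
  have hq := pw_pm_ge hN hN5
  exact ⟨(pm N + 1) * pm N, mul_pos (by linarith) (by linarith), pw_dnl_lip hN hN5⟩

lemma pw_nl_lip (hN : 3 ≤ N) (hN5 : N ≤ 5) (u v : ℝ) :
    |nl N u - nl N v| ≤ (pm N + 1) * (|u| ^ pm N + |v| ^ pm N) * |u - v| := by
  have hq := pw_pm_ge hN hN5
  apply pw_mvt (f := nl N) (f' := dnl N) (fun x => hasDerivAt_nl hN hN5 x)
  intro x hx
  have h1 := pw_abs_le_max hx
  unfold dnl
  rw [abs_mul, abs_of_pos (by linarith : 0 < pm N + 1),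
    abs_of_nonneg (Real.rpow_nonneg (abs_nonneg x) _)]
  apply mul_le_mul_of_nonneg_left _ (by linarith)
  exact (Real.rpow_le_rpow (abs_nonneg _) h1 (by linarith)).trans
    (pw_max_rpow_le (abs_nonneg _) (abs_nonneg _))

theorem nl_taylor (hN : 3 ≤ N) (hN5 : N ≤ 5) : ∃ C : ℝ, 0 < C ∧ ∀ u h : ℝ,
    |nl N (u + h) - nl N u - dnl N u * h| ≤ C * (|u| ^ (pm N - 1) + |h| ^ (pm N - 1)) * h ^ 2 := by
  have hq := pw_pm_ge hN hN5
  have hC0 : 0 < (pm N + 1) * pm N := mul_pos (by linarith) (by linarith)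
  have h2 : (0:ℝ) < 2 ^ (pm N - 1) := Real.rpow_pos_of_pos (by norm_num) _
  refine ⟨(pm N + 1) * pm N * (2 ^ (pm N - 1) + 1), mul_pos hC0 (by linarith), fun u h => ?_⟩
  have hd : ∀ t : ℝ, HasDerivAt (fun t => nl N (u + t) - dnl N u * t)
      (dnl N (u + t) - dnl N u) t := by
    intro t
    have h1 : HasDerivAt (fun t => nl N (u + t)) (dnl N (u + t)) t :=
      (hasDerivAt_nl hN hN5 (u + t)).comp_const_add u t
    have h3 : HasDerivAt (fun t => dnl N u * t) (dnl N u) t := by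
      simpa using (hasDerivAt_id t).const_mul (dnl N u)
    exact h1.sub h3
  have hu0 : 0 ≤ |u| ^ (pm N - 1) := Real.rpow_nonneg (abs_nonneg _) _
  have hh0 : 0 ≤ |h| ^ (pm N - 1) := Real.rpow_nonneg (abs_nonneg _) _
  have key := pw_mvt (u := h) (v := 0)
    (C := (pm N + 1) * pm N * (2 ^ (pm N - 1) + 1) * (|u| ^ (pm N - 1) + |h| ^ (pm N - 1)) * |h|)
    hd (by
      intro t ht
      have ht' : |t| ≤ |h| := by
        have := pw_abs_le_max ht
        simpa using this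
      have h1 := pw_dnl_lip hN hN5 (u + t) u
      have h3 : |u + t| ^ (pm N - 1) ≤ 2 ^ (pm N - 1) * (|u| ^ (pm N - 1) + |h| ^ (pm N - 1)) :=
        calc |u + t| ^ (pm N - 1) ≤ (|u| + |h|) ^ (pm N - 1) :=
              Real.rpow_le_rpow (abs_nonneg _) ((abs_add_le u t).trans (by linarith)) (by linarith)
          _ ≤ _ := pw_add_rpow_le (abs_nonneg _) (abs_nonneg _) (by linarith)
      rw [show u + t - u = t by ring] at h1
      refine h1.trans ?_
      have h4 : |u + t| ^ (pm N - 1) + |u| ^ (pm N - 1)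
          ≤ (2 ^ (pm N - 1) + 1) * (|u| ^ (pm N - 1) + |h| ^ (pm N - 1)) := by
        nlinarith
      have h5 : (pm N + 1) * pm N * (|u + t| ^ (pm N - 1) + |u| ^ (pm N - 1)) ≤
          (pm N + 1) * pm N * ((2 ^ (pm N - 1) + 1) * (|u| ^ (pm N - 1) + |h| ^ (pm N - 1))) :=
        mul_le_mul_of_nonneg_left h4 hC0.le
      calc _ ≤ (pm N + 1) * pm N * ((2 ^ (pm N - 1) + 1) *
            (|u| ^ (pm N - 1) + |h| ^ (pm N - 1))) * |h| :=
            mul_le_mul h5 ht' (abs_nonneg _) (by positivity)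
        _ = _ := by ring)
  have e1 : nl N (u + h) - nl N u - dnl N u * h =
      (nl N (u + h) - dnl N u * h) - (nl N (u + 0) - dnl N u * 0) := by
    rw [add_zero]; ring
  rw [e1]
  refine key.trans (le_of_eq ?_)
  rw [sub_zero, ← sq_abs h]
  ring

lemma pw_add_le {v w q : ℝ} (hq : 0 ≤ q) (hwv : |w| ≤ |v|) : |v + w| ^ q ≤ 2 ^ q * |v| ^ q := by
  rw [← Real.mul_rpow (by norm_num) (abs_nonneg _)]
  exact Real.rpow_le_rpow (abs_nonneg _) ((abs_add_le v w).trans (by linarith)) hq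

lemma pw_nl_split_aux (hN : 3 ≤ N) (hN5 : N ≤ 5) {v w : ℝ} (hwv : |w| ≤ |v|) :
    |nl N (v + w) - nl N v - nl N w| ≤
      ((pm N + 1) * (2 ^ pm N + 1) + 1) * (|v| ^ pm N * |w|) := by
  have hq := pw_pm_ge hN hN5
  have h1 := pw_nl_lip hN hN5 (v + w) v
  rw [show v + w - v = w by ring] at h1
  have h2 := pw_add_le (q := pm N) (by linarith) hwv
  have h3 : |nl N w| ≤ |v| ^ pm N * |w| := by
    unfold nl
    rw [abs_mul, abs_of_nonneg (Real.rpow_nonneg (abs_nonneg w) _)]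
    exact mul_le_mul_of_nonneg_right (Real.rpow_le_rpow (abs_nonneg _) hwv (by linarith))
      (abs_nonneg _)
  have h4 : (pm N + 1) * (|v + w| ^ pm N + |v| ^ pm N) * |w| ≤
      (pm N + 1) * (2 ^ pm N + 1) * (|v| ^ pm N * |w|) := by
    have : (pm N + 1) * (|v + w| ^ pm N + |v| ^ pm N) ≤
        (pm N + 1) * (2 ^ pm N * |v| ^ pm N + |v| ^ pm N) :=
      mul_le_mul_of_nonneg_left (by linarith) (by linarith)
    calc _ ≤ (pm N + 1) * (2 ^ pm N * |v| ^ pm N + |v| ^ pm N) * |w| :=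
          mul_le_mul_of_nonneg_right this (abs_nonneg _)
      _ = _ := by ring
  calc |nl N (v + w) - nl N v - nl N w| ≤ |nl N (v + w) - nl N v| + |nl N w| := abs_sub _ _
    _ ≤ (pm N + 1) * (2 ^ pm N + 1) * (|v| ^ pm N * |w|) + |v| ^ pm N * |w| :=
        add_le_add (h1.trans h4) h3
    _ = _ := by ring

theorem nl_split (hN : 3 ≤ N) (hN5 : N ≤ 5) : ∃ C : ℝ, 0 < C ∧ ∀ v w : ℝ,
    |nl N (v + w) - nl N v - nl N w| ≤ C * (|v| ^ pm N * |w| + |v| * |w| ^ pm N) := by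
  have hq := pw_pm_ge hN hN5
  have h2 : (0:ℝ) < 2 ^ pm N := Real.rpow_pos_of_pos (by norm_num) _
  have hC : 0 < (pm N + 1) * (2 ^ pm N + 1) + 1 := by
    have : 0 < (pm N + 1) * (2 ^ pm N + 1) := mul_pos (by linarith) (by linarith)
    linarith
  refine ⟨(pm N + 1) * (2 ^ pm N + 1) + 1, hC, fun v w => ?_⟩
  have hv0 : 0 ≤ |v| ^ pm N := Real.rpow_nonneg (abs_nonneg _) _
  have hw0 : 0 ≤ |w| ^ pm N := Real.rpow_nonneg (abs_nonneg _) _
  rcases le_total |w| |v| with h | h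
  · refine (pw_nl_split_aux hN hN5 h).trans (mul_le_mul_of_nonneg_left ?_ hC.le)
    have := mul_nonneg (abs_nonneg v) hw0
    linarith
  · have := pw_nl_split_aux hN hN5 h
    rw [show nl N (w + v) - nl N w - nl N v = nl N (v + w) - nl N v - nl N w by
      rw [add_comm w v]; ring] at this
    refine this.trans (mul_le_mul_of_nonneg_left ?_ hC.le)
    have := mul_nonneg hv0 (abs_nonneg w)
    linarith [mul_comm (|w| ^ pm N) |v|]

lemma pw_dnl_split_aux (hN : 3 ≤ N) (hN5 : N ≤ 5) {v w : ℝ} (hwv : |w| ≤ |v|) :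
    |dnl N (v + w) - dnl N v - dnl N w| ≤
      ((pm N + 1) * pm N * (2 ^ (pm N - 1) + 1) + (pm N + 1)) * (|v| ^ (pm N - 1) * |w|) := by
  have hq := pw_pm_ge hN hN5
  have h1 := pw_dnl_lip hN hN5 (v + w) v
  rw [show v + w - v = w by ring] at h1
  have h2 := pw_add_le (q := pm N - 1) (by linarith) hwv
  have hC0 : 0 < (pm N + 1) * pm N := mul_pos (by linarith) (by linarith)
  have h3 : |dnl N w| ≤ (pm N + 1) * (|v| ^ (pm N - 1) * |w|) := by
    unfold dnl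
    rw [abs_mul, abs_of_nonneg (Real.rpow_nonneg (abs_nonneg w) _), abs_of_pos (by linarith)]
    apply mul_le_mul_of_nonneg_left _ (by linarith)
    rcases eq_or_ne w 0 with rfl | hw
    · rw [abs_zero, mul_zero, Real.zero_rpow (by linarith)]
    · have hw' : 0 < |w| := abs_pos.mpr hw
      calc |w| ^ pm N = |w| ^ (pm N - 1) * |w| := by
            rw [← Real.rpow_add_one hw'.ne']; congr 1; ring
        _ ≤ _ := mul_le_mul_of_nonneg_right
            (Real.rpow_le_rpow (abs_nonneg _) hwv (by linarith)) (abs_nonneg _)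
  have h4 : (pm N + 1) * pm N * (|v + w| ^ (pm N - 1) + |v| ^ (pm N - 1)) * |w| ≤
      (pm N + 1) * pm N * (2 ^ (pm N - 1) + 1) * (|v| ^ (pm N - 1) * |w|) := by
    have : (pm N + 1) * pm N * (|v + w| ^ (pm N - 1) + |v| ^ (pm N - 1)) ≤
        (pm N + 1) * pm N * (2 ^ (pm N - 1) * |v| ^ (pm N - 1) + |v| ^ (pm N - 1)) :=
      mul_le_mul_of_nonneg_left (by linarith) hC0.le
    calc _ ≤ (pm N + 1) * pm N * (2 ^ (pm N - 1) * |v| ^ (pm N - 1) + |v| ^ (pm N - 1)) * |w| :=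
          mul_le_mul_of_nonneg_right this (abs_nonneg _)
      _ = _ := by ring
  calc |dnl N (v + w) - dnl N v - dnl N w| ≤ |dnl N (v + w) - dnl N v| + |dnl N w| := abs_sub _ _
    _ ≤ (pm N + 1) * pm N * (2 ^ (pm N - 1) + 1) * (|v| ^ (pm N - 1) * |w|)
        + (pm N + 1) * (|v| ^ (pm N - 1) * |w|) :=
        add_le_add (h1.trans h4) h3
    _ = _ := by ring

theorem dnl_split (hN : 3 ≤ N) (hN5 : N ≤ 5) : ∃ C : ℝ, 0 < C ∧ ∀ v w : ℝ,
    |dnl N (v + w) - dnl N v - dnl N w|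
      ≤ C * (|v| ^ (pm N - 1) * |w| + |v| * |w| ^ (pm N - 1)) := by
  have hq := pw_pm_ge hN hN5
  have h2 : (0:ℝ) < 2 ^ (pm N - 1) := Real.rpow_pos_of_pos (by norm_num) _
  have hC : 0 < (pm N + 1) * pm N * (2 ^ (pm N - 1) + 1) + (pm N + 1) := by
    have : 0 < (pm N + 1) * pm N := mul_pos (by linarith) (by linarith)
    have : 0 < (pm N + 1) * pm N * (2 ^ (pm N - 1) + 1) := mul_pos this (by linarith)
    linarith
  refine ⟨_, hC, fun v w => ?_⟩
  have hv0 : 0 ≤ |v| ^ (pm N - 1) := Real.rpow_nonneg (abs_nonneg _) _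
  have hw0 : 0 ≤ |w| ^ (pm N - 1) := Real.rpow_nonneg (abs_nonneg _) _
  rcases le_total |w| |v| with h | h
  · refine (pw_dnl_split_aux hN hN5 h).trans (mul_le_mul_of_nonneg_left ?_ hC.le)
    have := mul_nonneg (abs_nonneg v) hw0
    linarith
  · have := pw_dnl_split_aux hN hN5 h
    rw [show dnl N (w + v) - dnl N w - dnl N v = dnl N (v + w) - dnl N v - dnl N w by
      rw [add_comm w v]; ring] at this
    refine this.trans (mul_le_mul_of_nonneg_left ?_ hC.le)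
    have := mul_nonneg hv0 (abs_nonneg w)
    linarith [mul_comm (|w| ^ (pm N - 1)) |v|]

lemma pw_NL_taylor (hN : 3 ≤ N) (hN5 : N ≤ 5) {v w : ℝ} (hwv : |w| ≤ |v|) :
    |NL N (v + w) - NL N v - nl N v * w| ≤
      ((pm N + 1) * (2 ^ pm N + 1)) * (|v| ^ pm N * w ^ 2) := by
  have hq := pw_pm_ge hN hN5
  have h2 : (0:ℝ) < 2 ^ pm N := Real.rpow_pos_of_pos (by norm_num) _
  have hd : ∀ t : ℝ, HasDerivAt (fun t => NL N (v + t) - nl N v * t)
      (nl N (v + t) - nl N v) t := by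
    intro t
    have h1 : HasDerivAt (fun t => NL N (v + t)) (nl N (v + t)) t :=
      (hasDerivAt_NL hN hN5 (v + t)).comp_const_add v t
    have h3 : HasDerivAt (fun t => nl N v * t) (nl N v) t := by
      simpa using (hasDerivAt_id t).const_mul (nl N v)
    exact h1.sub h3
  have hv0 : 0 ≤ |v| ^ pm N := Real.rpow_nonneg (abs_nonneg _) _
  have key := pw_mvt (u := w) (v := 0)
    (C := (pm N + 1) * (2 ^ pm N + 1) * |v| ^ pm N * |w|)
    hd (by
      intro t ht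
      have ht' : |t| ≤ |w| := by
        have := pw_abs_le_max ht
        simpa using this
      have h1 := pw_nl_lip hN hN5 (v + t) v
      rw [show v + t - v = t by ring] at h1
      have h3 := pw_add_le (q := pm N) (by linarith) (ht'.trans hwv)
      refine h1.trans ?_
      have h5 : (pm N + 1) * (|v + t| ^ pm N + |v| ^ pm N) ≤
          (pm N + 1) * (2 ^ pm N + 1) * |v| ^ pm N := by
        calc _ ≤ (pm N + 1) * (2 ^ pm N * |v| ^ pm N + |v| ^ pm N) :=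
              mul_le_mul_of_nonneg_left (by linarith) (by linarith)
          _ = _ := by ring
      exact mul_le_mul h5 ht' (abs_nonneg _)
        (mul_nonneg (mul_nonneg (by linarith) (by linarith)) hv0))
  have e1 : NL N (v + w) - NL N v - nl N v * w =
      (NL N (v + w) - nl N v * w) - (NL N (v + 0) - nl N v * 0) := by
    rw [add_zero]; ring
  rw [e1]
  refine key.trans (le_of_eq ?_)
  rw [sub_zero, ← sq_abs w]
  ring

lemma pw_NL_split_aux (hN : 3 ≤ N) (hN5 : N ≤ 5) {v w : ℝ} (hwv : |w| ≤ |v|) :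
    |NL N (v + w) - NL N v - NL N w - nl N v * w - nl N w * v| ≤
      ((pm N + 1) * (2 ^ pm N + 1) + 2) * (|v| ^ pm N * w ^ 2) := by
  have hq := pw_pm_ge hN hN5
  have h1 := pw_NL_taylor hN hN5 hwv
  have hv0 : 0 ≤ |v| ^ pm N := Real.rpow_nonneg (abs_nonneg _) _
  have hw0 : 0 ≤ |w| ^ pm N := Real.rpow_nonneg (abs_nonneg _) _
  have h3 : |NL N w| ≤ |v| ^ pm N * w ^ 2 := by
    unfold NL
    have e : |w| ^ (pm N + 2) = |w| ^ pm N * w ^ 2 := by
      rcases eq_or_ne w 0 with rfl | hw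
      · rw [abs_zero, Real.zero_rpow (by linarith)]; ring
      · have hw' : 0 < |w| := abs_pos.mpr hw
        rw [Real.rpow_add hw', show (2:ℝ) = ((2:ℕ):ℝ) by norm_num, Real.rpow_natCast, sq_abs]
    rw [e, abs_of_nonneg (div_nonneg (mul_nonneg hw0 (sq_nonneg _)) (by linarith)),
      div_le_iff₀ (by linarith)]
    have h5 : |w| ^ pm N * w ^ 2 ≤ |v| ^ pm N * w ^ 2 :=
      mul_le_mul_of_nonneg_right (Real.rpow_le_rpow (abs_nonneg _) hwv (by linarith)) (sq_nonneg _)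
    have h6 : 0 ≤ |v| ^ pm N * w ^ 2 := mul_nonneg hv0 (sq_nonneg _)
    nlinarith
  have h4 : |nl N w * v| ≤ |v| ^ pm N * w ^ 2 := by
    unfold nl
    rw [abs_mul, abs_mul, abs_of_nonneg hw0]
    rcases eq_or_ne w 0 with rfl | hw
    · simp
    · have hw' : 0 < |w| := abs_pos.mpr hw
      have hv' : 0 < |v| := hw'.trans_le hwv
      have e1 : |w| ^ pm N = |w| ^ (pm N - 1) * |w| := by
        rw [← Real.rpow_add_one hw'.ne']; congr 1; ring
      have e2 : |v| ^ pm N = |v| ^ (pm N - 1) * |v| := by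
        rw [← Real.rpow_add_one hv'.ne']; congr 1; ring
      rw [e1, e2, ← sq_abs w]
      have h5 : |w| ^ (pm N - 1) ≤ |v| ^ (pm N - 1) :=
        Real.rpow_le_rpow (abs_nonneg _) hwv (by linarith)
      calc |w| ^ (pm N - 1) * |w| * |w| * |v| = |w| ^ (pm N - 1) * (|w| ^ 2 * |v|) := by ring
        _ ≤ |v| ^ (pm N - 1) * (|w| ^ 2 * |v|) :=
            mul_le_mul_of_nonneg_right h5 (by positivity)
        _ = _ := by ring
  calc |NL N (v + w) - NL N v - NL N w - nl N v * w - nl N w * v|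
      = |(NL N (v + w) - NL N v - nl N v * w) - NL N w - nl N w * v| := by
        congr 1; ring
    _ ≤ |(NL N (v + w) - NL N v - nl N v * w) - NL N w| + |nl N w * v| := abs_sub _ _
    _ ≤ |NL N (v + w) - NL N v - nl N v * w| + |NL N w| + |nl N w * v| :=
        add_le_add (abs_sub _ _) le_rfl
    _ ≤ (pm N + 1) * (2 ^ pm N + 1) * (|v| ^ pm N * w ^ 2) + |v| ^ pm N * w ^ 2
        + |v| ^ pm N * w ^ 2 := add_le_add (add_le_add h1 h3) h4
    _ = _ := by ring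

lemma pw_NL_split_aux' (hN : 3 ≤ N) (hN5 : N ≤ 5) {v w : ℝ} (hwv : |v| ≤ |w|) :
    |NL N (v + w) - NL N v - NL N w - nl N v * w - nl N w * v| ≤
      ((pm N + 1) * (2 ^ pm N + 1) + 2) * (|w| ^ pm N * v ^ 2) := by
  have := pw_NL_split_aux hN hN5 hwv
  rw [show NL N (w + v) - NL N w - NL N v - nl N w * v - nl N v * w =
    NL N (v + w) - NL N v - NL N w - nl N v * w - nl N w * v by rw [add_comm w v]; ring] at this
  exact this

theorem NL_split34 (hN : N = 3 ∨ N = 4) : ∃ C : ℝ, 0 < C ∧ ∀ v w : ℝ,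
    |NL N (v + w) - NL N v - NL N w - nl N v * w - nl N w * v|
      ≤ C * (|v| ^ pm N * w ^ 2 + v ^ 2 * |w| ^ pm N) := by
  have hN3 : 3 ≤ N := by omega
  have hN5 : N ≤ 5 := by omega
  have hq := pw_pm_ge hN3 hN5
  have h2 : (0:ℝ) < 2 ^ pm N := Real.rpow_pos_of_pos (by norm_num) _
  have hC : 0 < (pm N + 1) * (2 ^ pm N + 1) + 2 := by
    have : 0 < (pm N + 1) * (2 ^ pm N + 1) := mul_pos (by linarith) (by linarith)
    linarith
  refine ⟨_, hC, fun v w => ?_⟩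
  have hv0 : 0 ≤ |v| ^ pm N := Real.rpow_nonneg (abs_nonneg _) _
  have hw0 : 0 ≤ |w| ^ pm N := Real.rpow_nonneg (abs_nonneg _) _
  rcases le_total |w| |v| with h | h
  · refine (pw_NL_split_aux hN3 hN5 h).trans (mul_le_mul_of_nonneg_left ?_ hC.le)
    have := mul_nonneg (sq_nonneg v) hw0
    linarith
  · refine (pw_NL_split_aux' hN3 hN5 h).trans (mul_le_mul_of_nonneg_left ?_ hC.le)
    have := mul_nonneg hv0 (sq_nonneg w)
    linarith [mul_comm (|w| ^ pm N) (v ^ 2)]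

lemma pw_five {a b : ℝ} (hb : 0 ≤ b) (hab : b ≤ a) :
    a ^ ((4:ℝ) / 3) * b ^ 2 ≤ a ^ ((5:ℝ) / 3) * b ^ ((5:ℝ) / 3) := by
  rcases hb.eq_or_lt with rfl | hb'
  · rw [Real.zero_rpow (by norm_num)]; simp
  · have ha' : 0 < a := hb'.trans_le hab
    have e1 : a ^ ((5:ℝ) / 3) = a ^ ((4:ℝ) / 3) * a ^ ((1:ℝ) / 3) := by
      rw [← Real.rpow_add ha']; congr 1; norm_num
    have e2 : b ^ 2 = b ^ ((1:ℝ) / 3) * b ^ ((5:ℝ) / 3) := by
      rw [← Real.rpow_add hb', ← Real.rpow_natCast]; congr 1; norm_num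
    have h1 : b ^ ((1:ℝ) / 3) ≤ a ^ ((1:ℝ) / 3) := Real.rpow_le_rpow hb hab (by norm_num)
    have h2 : 0 ≤ a ^ ((4:ℝ) / 3) := Real.rpow_nonneg ha'.le _
    have h3 : 0 ≤ b ^ ((5:ℝ) / 3) := Real.rpow_nonneg hb _
    rw [e1, e2]
    calc a ^ ((4:ℝ) / 3) * (b ^ ((1:ℝ) / 3) * b ^ ((5:ℝ) / 3))
        ≤ a ^ ((4:ℝ) / 3) * (a ^ ((1:ℝ) / 3) * b ^ ((5:ℝ) / 3)) :=
          mul_le_mul_of_nonneg_left (mul_le_mul_of_nonneg_right h1 h3) h2
      _ = _ := by ring

lemma pw_pm5 : pm 5 = 4 / 3 := by unfold pm; norm_num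

theorem NL_split5 : ∃ C : ℝ, 0 < C ∧ ∀ v w : ℝ,
    |NL 5 (v + w) - NL 5 v - NL 5 w - nl 5 v * w - nl 5 w * v|
      ≤ C * |v| ^ ((5 : ℝ) / 3) * |w| ^ ((5 : ℝ) / 3) := by
  have hN3 : 3 ≤ 5 := by omega
  have hN5 : 5 ≤ 5 := by omega
  have hq := pw_pm_ge hN3 hN5
  have h2 : (0:ℝ) < 2 ^ pm 5 := Real.rpow_pos_of_pos (by norm_num) _
  have hC : 0 < (pm 5 + 1) * (2 ^ pm 5 + 1) + 2 := by
    have : 0 < (pm 5 + 1) * (2 ^ pm 5 + 1) := mul_pos (by linarith) (by linarith)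
    linarith
  refine ⟨_, hC, fun v w => ?_⟩
  rw [mul_assoc]
  rcases le_total |w| |v| with h | h
  · refine (pw_NL_split_aux hN3 hN5 h).trans (mul_le_mul_of_nonneg_left ?_ hC.le)
    rw [pw_pm5, ← sq_abs w]
    exact pw_five (abs_nonneg _) h
  · refine (pw_NL_split_aux' hN3 hN5 h).trans (mul_le_mul_of_nonneg_left ?_ hC.le)
    rw [pw_pm5, ← sq_abs v, mul_comm (|v| ^ ((5:ℝ) / 3))]
    exact pw_five (abs_nonneg _) h

theorem NL_sub (hN : 3 ≤ N) (hN5 : N ≤ 5) : ∃ C : ℝ, 0 < C ∧ ∀ u h : ℝ, 0 ≤ h → h ≤ u →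
    |NL N (u - h) - NL N u + nl N u * h| ≤ C * u ^ pm N * h ^ 2 := by
  have hq := pw_pm_ge hN hN5
  have h2 : (0:ℝ) < 2 ^ pm N := Real.rpow_pos_of_pos (by norm_num) _
  refine ⟨(pm N + 1) * (2 ^ pm N + 1), mul_pos (by linarith) (by linarith), fun u h h0 hu => ?_⟩
  have := pw_NL_taylor hN hN5 (v := u) (w := -h) (by
    rw [abs_neg, abs_of_nonneg h0, abs_of_nonneg (h0.trans hu)]; exact hu)
  rw [abs_of_nonneg (h0.trans hu), neg_sq,
    show NL N (u + -h) - NL N u - nl N u * -h = NL N (u - h) - NL N u + nl N u * h by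
      rw [← sub_eq_add_neg]; ring] at this
  rw [mul_assoc]
  exact this

end Pool.Agent.helper13.BN
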